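import Mathlib

/-!
# Homogeneous non-Hausdorff manifolds need at least `cov(ℳ)` Hausdorff open sets

For every homogeneous non-Hausdorff manifold `M` (of any dimension) the least number `OH M` of open
Hausdorff subsets which cover `M` is at least `cov(ℳ)`, the least number of meagre sets of reals
which cover the real line. Hence the answer to Q1 is negative if `cov(ℳ) = 𝔠`, in particular under
Martin's axiom for countable posets and under the continuum hypothesis.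
-/

set_option autoImplicit false

namespace Pool.Agent.K1H60.HNH.CN

open Topology Set Cardinal

universe u

section defs

variable (M : Type u) [TopologicalSpace M]

/-- `x` and `y` are distinct and have no disjoint open neighbourhoods -/
def NS (x y : M) : Prop :=
  x ≠ y ∧ ∀ U V : Set M, IsOpen U → IsOpen V → x ∈ U → y ∈ V → (U ∩ V).Nonempty

/-- homogeneous non-Hausdorff `n`-manifold -/
structure HNH (n : ℕ) : Prop where
  /-- `M` is connected -/
  connected : ConnectedSpace M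
  /-- every point has an open neighbourhood homeomorphic to `ℝⁿ` -/
  chart : ∀ x : M, ∃ U : Set M, IsOpen U ∧ x ∈ U ∧ Nonempty (U ≃ₜ (Fin n → ℝ))
  /-- `M` is homogeneous -/
  homogeneous : ∀ x y : M, ∃ h : M ≃ₜ M, h x = y
  /-- `M` is not Hausdorff -/
  nonHausdorff : ∃ x y : M, NS M x y

/-- the least cardinality of a cover by open sets which are Hausdorff in the subspace topology -/
noncomputable def OH : Cardinal.{u} :=
  sInf {κ | ∃ 𝒱 : Set (Set M), #𝒱 = κ ∧ (∀ V ∈ 𝒱, IsOpen V ∧ T2Space V) ∧ ⋃₀ 𝒱 = Set.univ}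

end defs

/-- the least cardinality of a family of meagre sets which covers the real line, `cov(ℳ)` -/
noncomputable def covM : Cardinal.{0} :=
  sInf {κ | ∃ 𝒮 : Set (Set ℝ), #𝒮 = κ ∧ (∀ S ∈ 𝒮, IsMeagre S) ∧ ⋃₀ 𝒮 = Set.univ}

/-- Question Q1 for spaces in the universe `u`: there is a homogeneous non-Hausdorff manifold with
`OH M < 𝔠` any two points of which are joined by a chain of non-separated points. -/
def Q1 : Prop :=
  ∃ (n : ℕ) (M : Type u) (_ : TopologicalSpace M), HNH M n ∧ OH M < 𝔠 ∧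
    ∀ x y : M, Relation.TransGen (NS M) x y

/-- Martin's axiom for countable posets: fewer than `𝔠` dense sets in a countable preorder are met
by a filter. -/
def MACountable : Prop :=
  ∀ (P : Type) [Preorder P] [Countable P] [Nonempty P] (𝒟 : Set (Set P)),
    (∀ D ∈ 𝒟, ∀ p : P, ∃ q ∈ D, q ≤ p) → #𝒟 < 𝔠 →
      ∃ G : Set P, G.Nonempty ∧ (∀ p ∈ G, ∀ q, p ≤ q → q ∈ G) ∧
        (∀ p ∈ G, ∀ q ∈ G, ∃ r ∈ G, r ≤ p ∧ r ≤ q) ∧ ∀ D ∈ 𝒟, (D ∩ G).Nonempty

/-! ### Sections of nowhere dense sets -/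

theorem meagre_sections {n : ℕ} {F : Set (Fin (n + 1) → ℝ)} (hc : IsClosed F)
    (hi : interior F = ∅) :
    IsMeagre {x : ℝ | (interior {y : Fin n → ℝ | (Fin.cons x y : Fin (n + 1) → ℝ) ∈ F}).Nonempty} := by
  let B := TopologicalSpace.countableBasis (Fin n → ℝ)
  have hB : TopologicalSpace.IsTopologicalBasis B := TopologicalSpace.isBasis_countableBasis _
  let I : Set (Set (Fin n → ℝ)) := {W | W ∈ B ∧ W.Nonempty}
  have hI : I.Countable := (TopologicalSpace.countable_countableBasis (Fin n → ℝ)).mono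
    (fun W hW => hW.1)
  have hm : IsMeagre (⋃ W ∈ I, {x : ℝ | ∀ y ∈ W, (Fin.cons x y : Fin (n + 1) → ℝ) ∈ F}) := by
    refine isMeagre_biUnion hI fun W hW => ?_
    have hcl : IsClosed {x : ℝ | ∀ y ∈ W, (Fin.cons x y : Fin (n + 1) → ℝ) ∈ F} := by
      have : {x : ℝ | ∀ y ∈ W, (Fin.cons x y : Fin (n + 1) → ℝ) ∈ F} =
          ⋂ y ∈ W, (fun x : ℝ => (Fin.cons x y : Fin (n + 1) → ℝ)) ⁻¹' F := by
        ext x
        simp
      rw [this]
      refine isClosed_biInter fun y _ => hc.preimage ?_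
      exact Continuous.finCons continuous_id continuous_const
    refine (IsNowhereDense.isMeagre ?_)
    rw [hcl.isNowhereDense_iff]
    by_contra hne
    obtain ⟨x0, hx0⟩ := nonempty_iff_ne_empty.2 hne
    obtain ⟨y0, hy0⟩ := hW.2
    have hG : IsOpen {z : Fin (n + 1) → ℝ |
        z 0 ∈ interior {x : ℝ | ∀ y ∈ W, (Fin.cons x y : Fin (n + 1) → ℝ) ∈ F} ∧
          Fin.tail z ∈ W} := by
      refine IsOpen.inter (isOpen_interior.preimage (continuous_apply 0)) ?_
      exact (hB.isOpen hW.1).preimage (Continuous.finTail continuous_id)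
    have hsub : {z : Fin (n + 1) → ℝ |
        z 0 ∈ interior {x : ℝ | ∀ y ∈ W, (Fin.cons x y : Fin (n + 1) → ℝ) ∈ F} ∧
          Fin.tail z ∈ W} ⊆ F := by
      rintro z ⟨hz1, hz2⟩
      have := interior_subset hz1 (Fin.tail z) hz2
      rwa [Fin.cons_self_tail] at this
    have hmem : (Fin.cons x0 y0 : Fin (n + 1) → ℝ) ∈ interior F := by
      refine interior_maximal hsub hG ⟨?_, ?_⟩
      · rw [Fin.cons_zero]; exact hx0
      · rw [Fin.tail_cons]; exact hy0
    rw [hi] at hmem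
    exact hmem
  refine hm.mono ?_
  rintro x ⟨y, hy⟩
  obtain ⟨W, hW, hyW, hWs⟩ := hB.exists_subset_of_mem_open hy isOpen_interior
  refine mem_iUnion₂.2 ⟨W, ⟨hW, ⟨y, hyW⟩⟩, fun y' hy' => ?_⟩
  have h3 : y' ∈ {y : Fin n → ℝ | (Fin.cons x y : Fin (n + 1) → ℝ) ∈ F} :=
    interior_subset (hWs hy')
  exact h3

/-- a cover of `ℝⁿ` by closed nowhere dense sets gives a cover of `ℝ` by meagre sets -/
theorem reduce {ι : Type u} : ∀ (n : ℕ) (F : ι → Set (Fin n → ℝ)), (∀ i, IsClosed (F i)) →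
    (∀ i, interior (F i) = ∅) → (∀ z, ∃ i, z ∈ F i) →
    ∃ Z : ι → Set ℝ, (∀ i, IsMeagre (Z i)) ∧ ∀ x, ∃ i, x ∈ Z i := by
  intro n
  induction n with
  | zero =>
    intro F _ hi hU
    obtain ⟨i, hz⟩ := hU (fun j => j.elim0)
    have : F i = Set.univ := by
      refine eq_univ_of_forall fun z => ?_
      have : z = fun j => j.elim0 := Subsingleton.elim _ _
      rw [this]; exact hz
    have h2 := hi i
    rw [this, interior_univ] at h2
    exact absurd (mem_univ (fun j : Fin 0 => (j.elim0 : ℝ))) (by rw [h2]; exact fun h => h)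
  | succ n ih =>
    intro F hc hi hU
    by_cases h : ∀ x : ℝ, ∃ i, x ∈ {x : ℝ |
        (interior {y : Fin n → ℝ | (Fin.cons x y : Fin (n + 1) → ℝ) ∈ F i}).Nonempty}
    · exact ⟨_, fun i => meagre_sections (hc i) (hi i), h⟩
    · push Not at h
      obtain ⟨x, hx⟩ := h
      refine ih (fun i => {y : Fin n → ℝ | (Fin.cons x y : Fin (n + 1) → ℝ) ∈ F i}) ?_ ?_ ?_
      · intro i
        exact (hc i).preimage (Continuous.finCons continuous_const continuous_id)
      · intro i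
        exact not_nonempty_iff_eq_empty.1 (hx i)
      · intro y
        exact hU (Fin.cons x y)

/-! ### Manifolds -/

theorem ns_all {M : Type u} [TopologicalSpace M] {n : ℕ} (h : HNH M n) (x : M) :
    ∃ y, NS M x y := by
  obtain ⟨a, b, hab, hUV⟩ := h.nonHausdorff
  obtain ⟨g, rfl⟩ := h.homogeneous a x
  refine ⟨g b, g.injective.ne hab, fun U V hU hV hx hy => ?_⟩
  obtain ⟨z, hz⟩ := hUV (g ⁻¹' U) (g ⁻¹' V) (hU.preimage g.continuous) (hV.preimage g.continuous)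
    hx hy
  exact ⟨g z, hz⟩

theorem family {M : Type u} [TopologicalSpace M] {n : ℕ} (h : HNH M n) (𝒱 : Set (Set M))
    (hV : ∀ V ∈ 𝒱, IsOpen V ∧ T2Space V) (hcov : ⋃₀ 𝒱 = Set.univ) :
    ∃ Z : 𝒱 → Set ℝ, (∀ i, IsMeagre (Z i)) ∧ ∀ x, ∃ i, x ∈ Z i := by
  haveI := h.connected
  obtain ⟨x0⟩ : Nonempty M := inferInstance
  obtain ⟨U, hU, -, ⟨e⟩⟩ := h.chart x0
  let g : (Fin n → ℝ) → M := fun p => (e.symm p : M)
  have hg : Continuous g := continuous_subtype_val.comp e.symm.continuous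
  have hgo : IsOpenMap g := hU.isOpenMap_subtype_val.comp e.symm.isOpenMap
  refine reduce n (fun V : 𝒱 => g ⁻¹' frontier (V : Set M)) ?_ ?_ ?_
  · intro V
    exact isClosed_frontier.preimage hg
  · intro V
    by_contra hne
    obtain ⟨p, hp⟩ := nonempty_iff_ne_empty.2 hne
    have h1 : g '' interior (g ⁻¹' frontier (V : Set M)) ⊆ frontier (V : Set M) := by
      rintro _ ⟨q, hq, rfl⟩
      have hq' : q ∈ g ⁻¹' frontier (V : Set M) := interior_subset hq
      exact hq'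
    have h2 : g p ∈ interior (frontier (V : Set M)) :=
      interior_maximal h1 (hgo _ isOpen_interior) (mem_image_of_mem g hp)
    rw [← frontier_compl, interior_frontier (hV V V.2).1.isClosed_compl] at h2
    exact h2
  · intro p
    obtain ⟨y, hxy, hns⟩ := ns_all h (g p)
    have hy : y ∈ ⋃₀ 𝒱 := by rw [hcov]; exact mem_univ y
    obtain ⟨V, hV1, hyV⟩ := mem_sUnion.1 hy
    refine ⟨⟨V, hV1⟩, ?_⟩
    show g p ∈ frontier V
    rw [(hV V hV1).1.frontier_eq]
    refine ⟨mem_closure_iff.2 fun o ho hpo => hns o V ho (hV V hV1).1 hpo hyV, fun hpV => ?_⟩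
    haveI := (hV V hV1).2
    obtain ⟨u, v, hu, hv, hpu, hyv, huv⟩ := t2_separation
      (show (⟨g p, hpV⟩ : V) ≠ ⟨y, hyV⟩ from fun h => hxy (congrArg Subtype.val h))
    obtain ⟨z, ⟨a, ha, rfl⟩, ⟨b, hb, hab⟩⟩ := hns (Subtype.val '' u) (Subtype.val '' v)
      ((hV V hV1).1.isOpenMap_subtype_val u hu) ((hV V hV1).1.isOpenMap_subtype_val v hv)
      ⟨_, hpu, rfl⟩ ⟨_, hyv, rfl⟩
    have : b = a := Subtype.ext hab
    subst this
    exact disjoint_left.1 huv ha hb

theorem OH_nonempty {M : Type u} [TopologicalSpace M] {n : ℕ} (h : HNH M n) :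
    {κ | ∃ 𝒱 : Set (Set M), #𝒱 = κ ∧ (∀ V ∈ 𝒱, IsOpen V ∧ T2Space V) ∧ ⋃₀ 𝒱 = Set.univ}.Nonempty := by
  refine ⟨_, {V : Set M | IsOpen V ∧ T2Space V}, rfl, fun V hV => hV, ?_⟩
  refine eq_univ_of_forall fun x => ?_
  obtain ⟨U, hU, hx, ⟨e⟩⟩ := h.chart x
  exact mem_sUnion.2 ⟨U, ⟨hU, e.symm.t2Space⟩, hx⟩

theorem covM_nonempty :
    {κ | ∃ 𝒮 : Set (Set ℝ), #𝒮 = κ ∧ (∀ S ∈ 𝒮, IsMeagre S) ∧ ⋃₀ 𝒮 = Set.univ}.Nonempty := by
  refine ⟨_, {S : Set ℝ | IsMeagre S}, rfl, fun S hS => hS, ?_⟩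
  refine eq_univ_of_forall fun x => mem_sUnion.2 ⟨{x}, ?_, mem_singleton x⟩
  refine IsNowhereDense.isMeagre ?_
  rw [isClosed_singleton.isNowhereDense_iff, interior_singleton]

theorem covM_le {M : Type u} [TopologicalSpace M] {n : ℕ} (h : HNH M n) :
    Cardinal.lift.{u} covM ≤ OH M := by
  unfold OH
  refine le_csInf (OH_nonempty h) ?_
  rintro κ ⟨𝒱, rfl, hV, hcov⟩
  obtain ⟨Z, hZ, hZc⟩ := family h 𝒱 hV hcov
  have h1 : covM ≤ #(range Z) := by
    unfold covM
    refine csInf_le' ⟨range Z, rfl, ?_, ?_⟩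
    · rintro _ ⟨i, rfl⟩
      exact hZ i
    · refine eq_univ_of_forall fun x => ?_
      obtain ⟨i, hi⟩ := hZc x
      exact mem_sUnion.2 ⟨_, ⟨i, rfl⟩, hi⟩
  have h2 : Cardinal.lift.{u} #(range Z) ≤ Cardinal.lift.{0} #𝒱 := mk_range_le_lift
  rw [Cardinal.lift_uzero] at h2
  exact (Cardinal.lift_le.2 h1).trans h2

theorem aleph_one_le_covM : ℵ₁ ≤ covM := by
  unfold covM
  refine le_csInf covM_nonempty ?_
  rintro κ ⟨𝒮, rfl, hS, hcov⟩
  rw [aleph_one_le_iff]
  by_contra hle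
  have hc : 𝒮.Countable := le_aleph0_iff_set_countable.1 (not_lt.1 hle)
  have hm : IsMeagre (Set.univ : Set ℝ) := by
    rw [← hcov, sUnion_eq_biUnion]
    exact isMeagre_biUnion hc hS
  have hd : Dense ((Set.univ : Set ℝ)ᶜ) := dense_of_mem_residual hm
  rw [compl_univ] at hd
  obtain ⟨x, hx⟩ := hd.nonempty
  exact hx

theorem covM_le_continuum : covM ≤ 𝔠 := by
  unfold covM
  have h1 : sInf {κ | ∃ 𝒮 : Set (Set ℝ), #𝒮 = κ ∧ (∀ S ∈ 𝒮, IsMeagre S) ∧ ⋃₀ 𝒮 = Set.univ} ≤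
      #(range fun x : ℝ => ({x} : Set ℝ)) := by
    refine csInf_le' ⟨_, rfl, ?_, ?_⟩
    · rintro _ ⟨x, rfl⟩
      refine IsNowhereDense.isMeagre ?_
      rw [isClosed_singleton.isNowhereDense_iff, interior_singleton]
    · refine eq_univ_of_forall fun x => mem_sUnion.2 ⟨{x}, ⟨x, rfl⟩, mem_singleton x⟩
  exact h1.trans (mk_range_le.trans (le_of_eq mk_real))

theorem le_OH_of_covM (h : covM = 𝔠) {M : Type u} [TopologicalSpace M] {n : ℕ} (hM : HNH M n) :
    𝔠 ≤ OH M := by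
  have h1 := covM_le hM
  rwa [h, lift_continuum] at h1

theorem not_Q1_of_covM (h : covM = 𝔠) : ¬ Q1.{u} := by
  rintro ⟨n, M, _, hM, hlt, -⟩
  exact absurd hlt (not_lt.2 (le_OH_of_covM h hM))

/-! ### Martin's axiom for countable posets -/

/-- closed intervals with rational end points, ordered by inclusion -/
structure Itv where
  a : ℚ
  b : ℚ
  h : a < b

instance : Preorder Itv where
  le q p := p.a ≤ q.a ∧ q.b ≤ p.b
  le_refl p := ⟨le_rfl, le_rfl⟩
  le_trans p q r h1 h2 := ⟨h2.1.trans h1.1, h1.2.trans h2.2⟩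

instance : Countable Itv := by
  refine Function.Injective.countable (f := fun p : Itv => (p.a, p.b)) ?_
  rintro ⟨a, b, h⟩ ⟨c, d, h'⟩ he
  simp only [Prod.mk.injEq] at he
  obtain ⟨rfl, rfl⟩ := he
  rfl

instance : Nonempty Itv := ⟨⟨0, 1, by norm_num⟩⟩

theorem dense_itv {N : Set ℝ} (hN : IsNowhereDense N) (p : Itv) :
    ∃ q ∈ {q : Itv | Disjoint (Icc (q.a : ℝ) q.b) (closure N)}, q ≤ p := by
  have hab : (p.a : ℝ) < p.b := by exact_mod_cast p.h
  have hne : (Ioo (p.a : ℝ) p.b ∩ (closure N)ᶜ).Nonempty := by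
    by_contra hc
    have h1 : Ioo (p.a : ℝ) p.b ⊆ closure N := by
      intro x hx
      by_contra hx'
      exact hc ⟨x, hx, hx'⟩
    obtain ⟨x, hx⟩ := nonempty_Ioo.2 hab
    have h2 : x ∈ interior (closure N) := interior_maximal h1 isOpen_Ioo hx
    rw [hN] at h2
    exact h2
  obtain ⟨x, hx⟩ := hne
  have ho : IsOpen (Ioo (p.a : ℝ) p.b ∩ (closure N)ᶜ) :=
    isOpen_Ioo.inter isClosed_closure.isOpen_compl
  obtain ⟨ε, hε, hball⟩ := Metric.isOpen_iff.1 ho x hx
  obtain ⟨a, ha1, ha2⟩ := exists_rat_btwn (show x - ε < x by linarith)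
  obtain ⟨b, hb1, hb2⟩ := exists_rat_btwn (show x < x + ε by linarith)
  have hIcc : Icc (a : ℝ) b ⊆ Ioo (p.a : ℝ) p.b ∩ (closure N)ᶜ := by
    intro y hy
    apply hball
    rw [Metric.mem_ball, Real.dist_eq, abs_lt]
    constructor
    · linarith [hy.1]
    · linarith [hy.2]
  have hab' : (a : ℝ) ≤ b := (ha2.trans hb1).le
  refine ⟨⟨a, b, by exact_mod_cast ha2.trans hb1⟩, ?_, ?_, ?_⟩
  · exact disjoint_left.2 fun y hy hy' => (hIcc hy).2 hy'
  · have := (hIcc (left_mem_Icc.2 hab')).1.1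
    show p.a ≤ a
    exact_mod_cast this.le
  · have := (hIcc (right_mem_Icc.2 hab')).1.2
    show b ≤ p.b
    exact_mod_cast this.le

theorem covM_of_MA (h : MACountable) : covM = 𝔠 := by
  refine le_antisymm covM_le_continuum ?_
  unfold covM
  refine le_csInf covM_nonempty ?_
  rintro κ ⟨𝒮, rfl, hS, hcov⟩
  by_contra hlt
  rw [not_le] at hlt
  have hT : ∀ S : 𝒮, ∃ T : Set (Set ℝ), (∀ t ∈ T, IsNowhereDense t) ∧ T.Countable ∧
      (S : Set ℝ) ⊆ ⋃₀ T := fun S => isMeagre_iff_countable_union_isNowhereDense.1 (hS S S.2)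
  choose T hT1 hT2 hT3 using hT
  let D : (Σ S : 𝒮, T S) → Set Itv := fun x =>
    {q : Itv | Disjoint (Icc (q.a : ℝ) q.b) (closure (x.2 : Set ℝ))}
  have hcard : #(range D) < 𝔠 := by
    refine lt_of_le_of_lt (mk_range_le.trans ?_) (mul_lt_of_lt aleph0_lt_continuum.le hlt
      aleph0_lt_continuum)
    rw [mk_sigma]
    refine (sum_le_sum _ (fun _ => ℵ₀) fun S => ?_).trans ?_
    · exact le_aleph0_iff_set_countable.2 (hT2 S)
    · rw [sum_const]
      simp
  obtain ⟨G, hG0, -, hG2, hG3⟩ := h Itv (range D) (by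
    rintro _ ⟨x, rfl⟩ p
    exact dense_itv (hT1 x.1 x.2 x.2.2) p) hcard
  haveI : Nonempty G := hG0.to_subtype
  obtain ⟨x, hx⟩ := IsCompact.nonempty_iInter_of_directed_nonempty_isCompact_isClosed
    (fun q : G => Icc ((q : Itv).a : ℝ) (q : Itv).b) (by
      intro p q
      obtain ⟨r, hr, hrp, hrq⟩ := hG2 p p.2 q q.2
      refine ⟨⟨r, hr⟩, Icc_subset_Icc ?_ ?_, Icc_subset_Icc ?_ ?_⟩
      · exact_mod_cast hrp.1
      · exact_mod_cast hrp.2
      · exact_mod_cast hrq.1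
      · exact_mod_cast hrq.2)
    (fun q => nonempty_Icc.2 (by exact_mod_cast (q : Itv).h.le))
    (fun q => isCompact_Icc) (fun q => isClosed_Icc)
  have hx' : x ∈ ⋃₀ 𝒮 := by rw [hcov]; exact mem_univ x
  obtain ⟨S, hS1, hxS⟩ := mem_sUnion.1 hx'
  obtain ⟨t, ht1, ht2⟩ := mem_sUnion.1 (hT3 ⟨S, hS1⟩ hxS)
  obtain ⟨q, hq1, hq2⟩ := hG3 (D ⟨⟨S, hS1⟩, ⟨t, ht1⟩⟩) ⟨_, rfl⟩
  have hxq : x ∈ Icc (q.a : ℝ) q.b := mem_iInter.1 hx ⟨q, hq2⟩
  have hq1' : Disjoint (Icc (q.a : ℝ) q.b) (closure t) := hq1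
  exact disjoint_left.1 hq1' hxq (subset_closure ht2)

/-- **Main theorem.** Every cover of a homogeneous non-Hausdorff manifold (of any dimension) by
open Hausdorff subsets has at least `cov(ℳ)` members, and `cov(ℳ)` is uncountable. Consequently the
answer to Q1 is negative if `cov(ℳ) = 𝔠`, in particular under Martin's axiom for countable posets
and under the continuum hypothesis. -/
theorem result :
    (∀ (n : ℕ) (M : Type u) [TopologicalSpace M], HNH M n →
      ℵ₁ ≤ Cardinal.lift.{u} covM ∧ Cardinal.lift.{u} covM ≤ OH M) ∧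
    (covM = 𝔠 ∨ MACountable ∨ (𝔠 : Cardinal.{0}) = ℵ₁ → ¬ Q1.{u}) := by
  refine ⟨fun _ _ _ h => ⟨?_, covM_le h⟩, ?_⟩
  · have h1 := Cardinal.lift_le.{u}.2 aleph_one_le_covM
    rwa [Cardinal.lift_aleph, Ordinal.lift_one] at h1
  · rintro (h | h | h)
    · exact not_Q1_of_covM h
    · exact not_Q1_of_covM (covM_of_MA h)
    · exact not_Q1_of_covM (le_antisymm covM_le_continuum (h.symm ▸ aleph_one_le_covM))

end Pool.Agent.K1H60.HNH.CN
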